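import Mathlib

set_option autoImplicit false

namespace Pool.Agent.Results.MP_e5baee_al.Image

open Matrix

/-- The identity matrix with the block `[[a, b], [c, d]]` on the coordinates `i, j`. -/
def blk {n : ℕ} (i j : Fin n) (a b c d : ℤ) : Matrix (Fin n) (Fin n) ℤ := fun p q =>
  if p = i then (if q = i then a else if q = j then b else 0)
  else if p = j then (if q = i then c else if q = j then d else 0)
  else if p = q then 1 else 0

/-- The matrices `ρ_v(σ_i)` and `ρ_v(τ_i)`. -/
def gens (n : ℕ) : Set (GL (Fin n) ℤ) :=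
  {g | ∃ i j : Fin n, (j : ℕ) = i + 1 ∧
    ((g : Matrix (Fin n) (Fin n) ℤ) = blk i j 2 (-1) 1 0 ∨
      (g : Matrix (Fin n) (Fin n) ℤ) = blk i j 0 1 1 0)}

variable {n : ℕ}

theorem blk_mulVec {i j : Fin n} (h : i ≠ j) (a b c d : ℤ) (x : Fin n → ℤ) (p : Fin n) :
    (blk i j a b c d *ᵥ x) p =
      if p = i then a * x i + b * x j else if p = j then c * x i + d * x j else x p := by
  have key : ∀ u v : ℤ, ∑ q, (if q = i then u else if q = j then v else 0) * x q
      = u * x i + v * x j := by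
    intro u v
    have : ∀ q, (if q = i then u else if q = j then v else 0) * x q
        = (if q = i then u * x q else 0) + (if q = j then v * x q else 0) := by
      intro q
      by_cases h1 : q = i
      · have : q ≠ j := fun e => h (h1.symm.trans e)
        simp [h1, h]
      · by_cases h2 : q = j <;> simp [h1, h2, h.symm]
    simp [this, Finset.sum_add_distrib]
  simp only [mulVec, dotProduct, blk]
  split_ifs with h1 h2
  · exact key a b
  · exact key c d
  · simp

theorem ext_vec {A B : Matrix (Fin n) (Fin n) ℤ} (h : ∀ x, A *ᵥ x = B *ᵥ x) : A = B :=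
  Matrix.toLin'.injective (LinearMap.ext h)

/-- The maps on vectors realised by the group. -/
def Op (f : (Fin n → ℤ) → Fin n → ℤ) : Prop :=
  ∃ g ∈ Subgroup.closure (gens n), ∀ x, (g : Matrix (Fin n) (Fin n) ℤ) *ᵥ x = f x

theorem Op.id : Op (fun x : Fin n → ℤ => x) := ⟨1, one_mem _, by simp⟩

theorem Op.comp {f g : (Fin n → ℤ) → Fin n → ℤ} (hf : Op f) (hg : Op g) :
    Op (fun x => f (g x)) := by
  obtain ⟨a, ha, h1⟩ := hf
  obtain ⟨b, hb, h2⟩ := hg
  exact ⟨a * b, mul_mem ha hb, fun x => by rw [Units.val_mul, ← mulVec_mulVec, h2, h1]⟩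

theorem op_swap {i j : Fin n} (h : (j : ℕ) = i + 1) : Op (fun x => x ∘ Equiv.swap i j) := by
  have hij : i ≠ j := fun e => by rw [e] at h; omega
  have e : ∀ x, blk i j 0 1 1 0 *ᵥ x = x ∘ Equiv.swap i j := by
    intro x
    funext p
    rw [blk_mulVec hij, Function.comp_apply, Equiv.swap_apply_def]
    split_ifs <;> simp
  have e2 : blk i j 0 1 1 0 * blk i j 0 1 1 0 = 1 := ext_vec fun x => by
    rw [← mulVec_mulVec, e, e, one_mulVec]
    funext p
    simp
  exact ⟨⟨_, _, e2, e2⟩, Subgroup.subset_closure ⟨i, j, h, Or.inr rfl⟩, e⟩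

theorem op_perm (σ : Equiv.Perm (Fin n)) : Op (fun x => x ∘ σ) := by
  cases n with
  | zero => exact ⟨1, one_mem _, fun x => Subsingleton.elim _ _⟩
  | succ n =>
    have : σ ∈ Submonoid.closure (Set.range fun i : Fin n => Equiv.swap i.castSucc i.succ) := by
      rw [Equiv.Perm.mclosure_swap_castSucc_succ]; trivial
    induction this using Submonoid.closure_induction with
    | mem x hx =>
      obtain ⟨i, rfl⟩ := hx
      exact op_swap (by simp)
    | one => exact Op.id
    | mul x y _ _ hx hy => exact hy.comp hx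

/-- Reflection of coordinate `i` in coordinate `j`. -/
def rf (i j : Fin n) (x : Fin n → ℤ) : Fin n → ℤ := Function.update x i (2 * x j - x i)

theorem op_rf {i j : Fin n} (hij : i ≠ j) : Op (rf i j) := by
  have h2 : 1 < n := by
    by_contra hc
    apply hij
    ext
    have := i.2
    have := j.2
    omega
  set a : Fin n := ⟨0, by omega⟩
  set b : Fin n := ⟨1, h2⟩
  have hab : a ≠ b := by simp [a, b]
  have h0 : Op (fun x => blk a b 2 (-1) 1 0 *ᵥ x) := by
    have e1 : blk a b 2 (-1) 1 0 * blk a b 0 1 (-1) 2 = 1 := ext_vec fun x => by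
      rw [← mulVec_mulVec, one_mulVec]
      funext p
      simp only [blk_mulVec hab, hab.symm, if_true, if_false]
      split_ifs with h1 h3
      · rw [h1]; ring
      · rw [h3]; ring
      · rfl
    exact ⟨⟨_, _, e1, mul_eq_one_comm.mp e1⟩,
      Subgroup.subset_closure ⟨a, b, rfl, Or.inl rfl⟩, fun x => rfl⟩
  obtain ⟨σ, h3, h4⟩ : ∃ σ : Equiv.Perm (Fin n), σ a = i ∧ σ b = j := by
    refine ⟨Equiv.swap (Equiv.swap a i b) j * Equiv.swap a i, ?_, by simp⟩
    rw [Equiv.Perm.mul_apply, Equiv.swap_apply_left, Equiv.swap_apply_of_ne_of_ne _ hij]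
    intro e
    have := congrArg (Equiv.swap a i) e
    simp at this
    exact hab this
  have := (op_perm σ.symm).comp (h0.comp ((op_perm (Equiv.swap a b)).comp (op_perm σ)))
  convert this using 1
  funext x p
  obtain ⟨q, rfl⟩ := σ.surjective p
  simp only [Function.comp_apply, Equiv.symm_apply_apply, blk_mulVec hab, Equiv.swap_apply_left,
    Equiv.swap_apply_right, h3, h4, rf]
  split_ifs with k1 k2
  · rw [k1, h3, Function.update_self]; ring
  · rw [k2, h4, Function.update_of_ne hij.symm]; ring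
  · rw [Equiv.swap_apply_of_ne_of_ne k1 k2, Function.update_of_ne]
    rw [← h3]
    exact fun e => k1 (σ.injective e)

/-- Moves that keep the basis vectors outside `I` fixed. -/
inductive Mv (I : Finset (Fin n)) : (Fin n → ℤ) → (Fin n → ℤ) → Prop
  | refl (x : Fin n → ℤ) : Mv I x x
  | one {x y : Fin n → ℤ} (i j : Fin n) : i ∈ I → j ∈ I → i ≠ j → Mv I (rf i j x) y → Mv I x y
  | two {x y : Fin n → ℤ} (i j l : Fin n) : i ∉ I → j ∈ I → l ∈ I →
      Mv I (rf i j (rf i l x)) y → Mv I x y

theorem Mv.trans {I : Finset (Fin n)} {x y z : Fin n → ℤ} (h : Mv I x y) (h' : Mv I y z) :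
    Mv I x z := by
  induction h with
  | refl => exact h'
  | one i j h1 h2 h3 _ ih => exact Mv.one i j h1 h2 h3 (ih h')
  | two i j l h1 h2 h3 _ ih => exact Mv.two i j l h1 h2 h3 (ih h')

theorem Mv.op {I : Finset (Fin n)} {x y : Fin n → ℤ} (h : Mv I x y) :
    ∃ f, Op f ∧ f x = y ∧ (∀ c ∉ I, f (Pi.single c 1) = Pi.single c 1) ∧ f 1 = 1 ∧
      ∀ z i, Even (f z i - z i) := by
  have r1 : ∀ i j : Fin n, rf i j 1 = 1 := fun i j => by simp [rf]
  have r2 : ∀ (i j : Fin n) z p, Even (rf i j z p - z p) := by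
    intro i j z p
    by_cases hp : p = i
    · rw [hp, rf, Function.update_self]; exact ⟨z j - z i, by ring⟩
    · simp [rf, hp]
  induction h with
  | refl => exact ⟨_, Op.id, rfl, fun _ _ => rfl, rfl, by simp⟩
  | one i j h1 h2 h3 _ ih =>
    obtain ⟨f, k1, k2, k3, k4, k5⟩ := ih
    refine ⟨_, k1.comp (op_rf h3), k2, fun c hc => ?_, by rw [r1, k4], fun z p => ?_⟩
    · have e1 : i ≠ c := fun e => hc (e ▸ h1)
      have e2 : j ≠ c := fun e => hc (e ▸ h2)
      have : rf i j (Pi.single c 1) = Pi.single c 1 := by simp [rf, e1, e2]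
      rw [this, k3 c hc]
    · simpa using (k5 (rf i j z) p).add (r2 i j z p)
  | two i j l h1 h2 h3 _ ih =>
    obtain ⟨f, k1, k2, k3, k4, k5⟩ := ih
    have hij : i ≠ j := fun e => h1 (e ▸ h2)
    have hil : i ≠ l := fun e => h1 (e ▸ h3)
    refine ⟨_, k1.comp ((op_rf hij).comp (op_rf hil)), k2, fun c hc => ?_, by rw [r1, r1, k4],
      fun z p => ?_⟩
    · have e1 : l ≠ c := fun e => hc (e ▸ h3)
      have e2 : j ≠ c := fun e => hc (e ▸ h2)
      have : rf i j (rf i l (Pi.single c 1)) = Pi.single c 1 := by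
        simp [rf, e1, e2, hij.symm]
      rw [this, k3 c hc]
    · simpa using ((k5 (rf i j (rf i l z)) p).add (r2 i j (rf i l z) p)).add (r2 i l z p)

theorem flip_all {I : Finset (Fin n)} {p : Fin n} (hp : p ∈ I) (J : Finset (Fin n)) (hJ : J ⊆ I)
    (hpJ : p ∉ J) (x : Fin n → ℤ) :
    Mv I x (fun j => if j ∈ J then 2 * x p - x j else x j) := by
  induction J using Finset.induction_on with
  | empty => simpa using Mv.refl x
  | insert a J ha ih =>
    have h1 : a ≠ p := fun e => hpJ (by simp [e])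
    have h2 : p ∉ J := fun e => hpJ (by simp [e])
    refine (ih (fun y hy => hJ (by simp [hy])) h2).trans
      (Mv.one a p (hJ (by simp)) hp h1 ?_)
    convert Mv.refl _ using 1
    funext j
    by_cases hj : j = a
    · simp [rf, hj, ha, h2]
    · simp [rf, hj]

theorem euclid {I : Finset (Fin n)} {p : Fin n} (hp : p ∈ I) (N : ℕ) : ∀ x : Fin n → ℤ,
    ∑ j ∈ I, (x j - x p).natAbs ≤ N → (∀ j ∈ I, j ≠ p → Odd (x j - x p)) →
    (∀ g : ℤ, (∀ j ∈ I, g ∣ x j - x p) → g ∣ 1) →
    ∃ y, Mv I x y ∧ y p = x p ∧ (∀ j ∈ I, j ≠ p → y j = x p - 1) ∧ ∀ j ∉ I, y j = x j := by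
  induction N using Nat.strong_induction_on with
  | _ N ih =>
  intro x h1 h2 h3
  by_cases hc : ∃ a ∈ I, ∃ b ∈ I, a ≠ p ∧ (x a - x p).natAbs < (x b - x p).natAbs
  · obtain ⟨a, ha, b, hb, hap, hab⟩ := hc
    have ho := h2 a ha hap
    have hbp : b ≠ p := fun e => by rw [e] at hab; simp at hab
    have hba : b ≠ a := fun e => by rw [e] at hab; omega
    have hne : x a - x p ≠ 0 := fun e => by rw [e] at ho; simp at ho
    obtain ⟨s, hs, m1, m2⟩ : ∃ s : ℤ, (s = 2 ∨ s = -2) ∧
        Mv I x (Function.update x b (x b + s * (x a - x p))) ∧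
        (x b + s * (x a - x p) - x p).natAbs < (x b - x p).natAbs := by
      by_cases hs : (x b + 2 * (x a - x p) - x p).natAbs < (x b - x p).natAbs
      · refine ⟨2, Or.inl rfl, Mv.one b p hb hp hbp (Mv.one b a hb ha hba ?_), hs⟩
        convert Mv.refl _ using 1
        simp [rf, hba.symm]
        ring
      · refine ⟨-2, Or.inr rfl, Mv.one b a hb ha hba (Mv.one b p hb hp hbp ?_), by omega⟩
        convert Mv.refl _ using 1
        simp [rf, hbp.symm]
        ring
    set x' := Function.update x b (x b + s * (x a - x p)) with hx'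
    have e1 : x' p = x p := Function.update_of_ne hbp.symm _ _
    have e2 : x' b = x b + s * (x a - x p) := Function.update_self _ _ _
    have e3 : ∀ j, j ≠ b → x' j = x j := fun j hj => Function.update_of_ne hj _ _
    have hlt : ∑ j ∈ I, (x' j - x' p).natAbs < ∑ j ∈ I, (x j - x p).natAbs := by
      refine Finset.sum_lt_sum (fun j _ => ?_) ⟨b, hb, by rw [e1, e2]; exact m2⟩
      by_cases hj : j = b
      · rw [hj, e1, e2]; exact m2.le
      · rw [e1, e3 j hj]
    obtain ⟨y, k1, k2, k3, k4⟩ := ih _ (hlt.trans_le h1) x' le_rfl (by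
      intro j hj hjp
      rw [e1]
      by_cases hjb : j = b
      · rw [hjb, e2]
        obtain ⟨u, hu⟩ := h2 b hb hbp
        rcases hs with rfl | rfl
        · exact ⟨u + (x a - x p), by linarith⟩
        · exact ⟨u - (x a - x p), by linarith⟩
      · rw [e3 j hjb]; exact h2 j hj hjp) (by
      intro g hg
      apply h3 g
      intro j hj
      by_cases hjb : j = b
      · have d1 := hg b hb
        have d2 := hg a ha
        rw [e1, e2] at d1
        rw [e1, e3 a hba.symm] at d2
        have := d1.sub (d2.mul_left s)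
        rw [hjb]
        have e : x b - x p = x b + s * (x a - x p) - x p - s * (x a - x p) := by ring
        rw [e]
        exact this
      · simpa [e1, e3 j hjb] using hg j hj)
    exact ⟨y, m1.trans k1, k2.trans e1, fun j hj hjp => by rw [k3 j hj hjp, e1],
      fun j hj => by rw [k4 j hj, e3 j (fun e => hj (e ▸ hb))]⟩
  · push Not at hc
    have h4 : ∀ a ∈ I, a ≠ p → (x a - x p).natAbs = 1 := by
      intro a ha hap
      have := h3 (x a - x p) (fun j hj => by
        by_cases hjp : j = p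
        · simp [hjp]
        · have := hc a ha j hj hap
          have := hc j hj a ha hjp
          exact Int.natAbs_dvd_natAbs.mp (dvd_of_eq (by omega)))
      exact Nat.dvd_one.mp (Int.natAbs_dvd_natAbs.mpr this)
    refine ⟨_, flip_all hp (I.filter fun j => x j = x p + 1) (Finset.filter_subset _ _)
      (by simp) x, by simp, fun j hj hjp => ?_, fun j hj => by simp [hj]⟩
    have := h4 j hj hjp
    simp only [Finset.mem_filter, hj, true_and]
    split_ifs <;> omega

theorem shift {I : Finset (Fin n)} {p q : Fin n} (hp : p ∈ I) (hq : q ∈ I) (hpq : q ≠ p) (N : ℕ) :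
    ∀ (x : Fin n → ℤ) (t : ℤ), t.natAbs ≤ N → x p = 2 * t + 1 →
    (∀ j ∈ I, j ≠ p → x j = 2 * t) →
    ∃ y, Mv I x y ∧ y p = 1 ∧ (∀ j ∈ I, j ≠ p → y j = 0) ∧ ∀ j ∉ I, y j = x j := by
  induction N with
  | zero =>
    intro x t h1 h2 h3
    have : t = 0 := by omega
    subst this
    exact ⟨x, Mv.refl x, by simpa using h2, by simpa using h3, fun _ _ => rfl⟩
  | succ N ih =>
    intro x t h1 h2 h3
    rcases lt_trichotomy t 0 with ht | ht | ht
    · have m1 := flip_all hp (I.erase p) (Finset.erase_subset _ _) (by simp) x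
      set x1 := fun j => if j ∈ I.erase p then 2 * x p - x j else x j with hx1
      obtain ⟨y, k1, k2, k3, k4⟩ := ih (rf p q x1) (t + 1) (by omega)
        (by simp [rf, hx1, hpq, hq, h2, h3 q hq hpq]; ring)
        (fun j hj hjp => by simp [rf, hx1, hjp, hj, h2, h3 j hj hjp]; ring)
      refine ⟨y, m1.trans (Mv.one p q hp hq hpq.symm k1), k2, k3, fun j hj => ?_⟩
      have : j ≠ p := fun e => hj (e ▸ hp)
      simp [k4 j hj, rf, hx1, hj, this]
    · subst ht
      exact ⟨x, Mv.refl x, by simpa using h2, by simpa using h3, fun _ _ => rfl⟩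
    · have m1 := flip_all hp (I.erase p) (Finset.erase_subset _ _) (by simp) (rf p q x)
      obtain ⟨y, k1, k2, k3, k4⟩ := ih (fun j => if j ∈ I.erase p then
          2 * rf p q x p - rf p q x j else rf p q x j) (t - 1) (by omega)
        (by simp [rf, h2, h3 q hq hpq]; ring)
        (fun j hj hjp => by simp [rf, hjp, hj, h2, h3 j hj hjp, h3 q hq hpq]; ring)
      refine ⟨y, Mv.one p q hp hq hpq.symm (m1.trans k1), k2, k3, fun j hj => ?_⟩
      have : j ≠ p := fun e => hj (e ▸ hp)
      simp [k4 j hj, rf, hj, this]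

theorem clear {I : Finset (Fin n)} {p q : Fin n} (hp : p ∈ I) (hq : q ∈ I) (hpq : q ≠ p) (N : ℕ) :
    ∀ x : Fin n → ℤ, ∑ j ∈ Iᶜ, (x j).natAbs ≤ N → x p = 1 → (∀ j ∈ I, j ≠ p → x j = 0) →
    (∀ j ∉ I, Even (x j)) → Mv I x (Pi.single p 1) := by
  induction N using Nat.strong_induction_on with
  | _ N ih =>
  intro x h1 h2 h3 h4
  by_cases hc : ∃ b, b ∉ I ∧ x b ≠ 0
  · obtain ⟨b, hb, hb0⟩ := hc
    have hbp : p ≠ b := fun e => hb (e ▸ hp)
    have hbq : q ≠ b := fun e => hb (e ▸ hq)
    obtain ⟨u, hu⟩ := h4 b hb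
    obtain ⟨s, hs, m1, m2⟩ : ∃ s : ℤ, Even s ∧ Mv I x (Function.update x b s) ∧
        s.natAbs < (x b).natAbs := by
      by_cases hs : x b < 0
      · refine ⟨x b + 2, ⟨u + 1, by linarith⟩, Mv.two b p q hb hp hq ?_, by omega⟩
        convert Mv.refl _ using 1
        simp [rf, hbp, h2, h3 q hq hpq]
        ring
      · refine ⟨x b - 2, ⟨u - 1, by linarith⟩, Mv.two b q p hb hq hp ?_, by omega⟩
        convert Mv.refl _ using 1
        simp [rf, hbq, h2, h3 q hq hpq]
    have hlt : ∑ j ∈ Iᶜ, (Function.update x b s j).natAbs < ∑ j ∈ Iᶜ, (x j).natAbs := by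
      refine Finset.sum_lt_sum (fun j _ => ?_) ⟨b, by simpa using hb, by simpa using m2⟩
      by_cases hj : j = b
      · rw [hj]; simpa using m2.le
      · simp [hj]
    refine m1.trans (ih _ (hlt.trans_le h1) _ le_rfl (by simp [hbp, h2]) (fun j hj hjp => ?_)
      (fun j hj => ?_))
    · have : j ≠ b := fun e => hb (e ▸ hj)
      simp [this, h3 j hj hjp]
    · by_cases hjb : j = b
      · simpa [hjb] using hs
      · simpa [hjb] using h4 j hj
  · push Not at hc
    convert Mv.refl x using 1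
    funext j
    by_cases hj : j = p
    · simp [hj, h2]
    · by_cases hj2 : j ∈ I
      · simp [hj, h3 j hj2 hj]
      · simp [hj, hc j hj2]

theorem pure (I : Finset (Fin n)) : ∀ M : GL (Fin n) ℤ,
    (M : Matrix (Fin n) (Fin n) ℤ) *ᵥ 1 = 1 →
    (∀ z i, Even (((M : Matrix (Fin n) (Fin n) ℤ) *ᵥ z) i - z i)) →
    (∀ c ∉ I, (M : Matrix (Fin n) (Fin n) ℤ) *ᵥ Pi.single c 1 = Pi.single c 1) →
    M ∈ Subgroup.closure (gens n) := by
  induction I using Finset.strongInduction with
  | _ I ih =>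
  intro M h1 h2 h3
  by_cases hI : ∃ p ∈ I, ∃ q ∈ I, q ≠ p
  · obtain ⟨p, hp, q, hq, hpq⟩ := hI
    set x := (M : Matrix (Fin n) (Fin n) ℤ) *ᵥ Pi.single p 1 with hx
    have o1 : ∀ j, j ≠ p → Even (x j) := fun j hj => by simpa [hj, hx] using h2 (Pi.single p 1) j
    obtain ⟨t, ht⟩ : Even (x p - 1) := by simpa [hx] using h2 (Pi.single p 1) p
    obtain ⟨y, k1, k2, k3, k4⟩ := euclid hp _ x le_rfl (fun j _ hj => by
      obtain ⟨u, hu⟩ := o1 j hj
      exact ⟨u - t - 1, by linarith⟩) (fun g hg => by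
      have e1 : ∀ v, (M : Matrix (Fin n) (Fin n) ℤ) *ᵥ v = v →
          ((M⁻¹ : GL (Fin n) ℤ) : Matrix (Fin n) (Fin n) ℤ) *ᵥ v = v := fun v hv => by
        conv_lhs => rw [← hv]
        rw [mulVec_mulVec, ← Units.val_mul, inv_mul_cancel, Units.val_one, one_mulVec]
      set N := ((M⁻¹ : GL (Fin n) ℤ) : Matrix (Fin n) (Fin n) ℤ) with hN
      have e2 : N *ᵥ x = Pi.single p 1 := by
        rw [hx, mulVec_mulVec, hN, ← Units.val_mul, inv_mul_cancel, Units.val_one, one_mulVec]
      have e3 : ∀ r ∈ I, g ∣ (Pi.single p 1 : Fin n → ℤ) r - x p := by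
        intro r hr
        have d1 : (N *ᵥ (1 : Fin n → ℤ)) r = 1 := congrFun (e1 1 h1) r
        have d2 : (Pi.single p 1 : Fin n → ℤ) r - x p = ∑ j, N r j * (x j - x p) := by
          rw [← e2]
          simp only [mulVec, dotProduct, Pi.one_apply, mul_one] at d1 ⊢
          simp only [mul_sub, Finset.sum_sub_distrib, ← Finset.sum_mul, d1, one_mul]
        rw [d2]
        refine Finset.dvd_sum fun j _ => ?_
        by_cases hj : j ∈ I
        · exact (hg j hj).mul_left _
        · have d3 := congrFun (e1 _ (h3 j hj)) r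
          have : r ≠ j := fun e => hj (e ▸ hr)
          simp [this] at d3
          simp [d3]
      have := (e3 p hp).sub (e3 q hq)
      simpa [hpq] using this)
    obtain ⟨z, l1, l2, l3, l4⟩ := shift hp hq hpq _ y t le_rfl (by linarith)
      (fun j hj hjp => by rw [k3 j hj hjp]; linarith)
    have m := (k1.trans l1).trans (clear hp hq hpq _ z le_rfl l2 l3 (fun j hj => by
      rw [l4 j hj, k4 j hj]; exact o1 j (fun e => hj (e ▸ hp))))
    obtain ⟨f, ⟨g, g1, g2⟩, f1, f2, f3, f4⟩ := m.op
    have := ih (I.erase p) (Finset.erase_ssubset hp) (g * M)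
      (by rw [Units.val_mul, ← mulVec_mulVec, h1, g2, f3])
      (fun z i => by
        rw [Units.val_mul, ← mulVec_mulVec, g2]
        simpa only [sub_add_sub_cancel] using (f4 ((M : Matrix (Fin n) (Fin n) ℤ) *ᵥ z) i).add (h2 z i))
      (fun c hc => by
        rw [Units.val_mul, ← mulVec_mulVec, g2]
        by_cases hcp : c = p
        · rw [hcp]; exact f1
        · have : c ∉ I := fun e => hc (Finset.mem_erase.mpr ⟨hcp, e⟩)
          rw [h3 c this, f2 c this])
    exact (Subgroup.mul_mem_cancel_left _ g1).mp this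
  · push Not at hI
    have : M = 1 := by
      apply Units.ext
      ext i j
      by_cases hj : j ∈ I
      · have d1 := congrFun h1 i
        simp only [mulVec, dotProduct, Pi.one_apply, mul_one] at d1
        have d2 : ∑ l, (1 : Matrix (Fin n) (Fin n) ℤ) i l = 1 := by simp [one_apply]
        rw [← Finset.add_sum_erase _ _ (Finset.mem_univ j)] at d1 d2
        have d3 : ∑ l ∈ Finset.univ.erase j, (M : Matrix (Fin n) (Fin n) ℤ) i l
            = ∑ l ∈ Finset.univ.erase j, (1 : Matrix (Fin n) (Fin n) ℤ) i l := by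
          refine Finset.sum_congr rfl fun l hl => ?_
          have : l ∉ I := fun e => (Finset.mem_erase.mp hl).1 (hI j hj l e)
          simpa [Pi.single_apply, one_apply] using congrFun (h3 l this) i
        rw [Units.val_one]
        linarith
      · simpa [Pi.single_apply, one_apply] using congrFun (h3 j hj) i
    rw [this]
    exact one_mem _

theorem result (n : ℕ) (M : GL (Fin n) ℤ) : M ∈ Subgroup.closure (gens n) ↔
    (∀ i, ∑ j, (M : Matrix (Fin n) (Fin n) ℤ) i j = 1) ∧ ∃ π : Equiv.Perm (Fin n), ∀ i j,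
      (M : Matrix (Fin n) (Fin n) ℤ) i j ≡ (if π i = j then 1 else 0) [ZMOD 2] := by
  have key : ∀ M : GL (Fin n) ℤ, ((∀ i, ∑ j, (M : Matrix (Fin n) (Fin n) ℤ) i j = 1) ∧
      ∃ π : Equiv.Perm (Fin n), ∀ i j,
        (M : Matrix (Fin n) (Fin n) ℤ) i j ≡ (if π i = j then 1 else 0) [ZMOD 2]) ↔
      ((M : Matrix (Fin n) (Fin n) ℤ) *ᵥ 1 = 1 ∧ ∃ π : Equiv.Perm (Fin n), ∀ z i,
        Even (((M : Matrix (Fin n) (Fin n) ℤ) *ᵥ z) i - z (π i))) := by
    intro M
    refine and_congr (by simp [funext_iff, mulVec, dotProduct]) (exists_congr fun π => ?_)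
    constructor
    · intro h z i
      have : ((M : Matrix (Fin n) (Fin n) ℤ) *ᵥ z) i - z (π i) = ∑ j,
          ((M : Matrix (Fin n) (Fin n) ℤ) i j - if π i = j then 1 else 0) * z j := by
        simp [mulVec, dotProduct, sub_mul, Finset.sum_sub_distrib]
      rw [this, even_iff_two_dvd]
      exact Finset.dvd_sum fun j _ => ((h i j).symm.dvd).mul_right _
    · intro h i j
      have := h (Pi.single j 1) i
      rw [even_iff_two_dvd] at this
      refine (Int.modEq_of_dvd ?_).symm
      simpa [Pi.single_apply] using this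
  rw [key]
  constructor
  · intro hM
    induction hM using Subgroup.closure_induction with
    | mem g hg =>
      obtain ⟨i, j, h, hg⟩ := hg
      have hij : i ≠ j := fun e => by rw [e] at h; omega
      rcases hg with hg | hg <;> rw [hg] <;>
        refine ⟨funext fun p => by simp [blk_mulVec hij], Equiv.swap i j, fun z p => ?_⟩ <;>
        rw [blk_mulVec hij, Equiv.swap_apply_def] <;> split_ifs <;> try simp
      exact ⟨z i - z j, by ring⟩
    | one => exact ⟨by simp, 1, by simp⟩
    | mul g h _ _ hg hh =>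
      obtain ⟨a1, π, a2⟩ := hg
      obtain ⟨b1, σ, b2⟩ := hh
      refine ⟨by rw [Units.val_mul, ← mulVec_mulVec, b1, a1], σ * π, fun z i => ?_⟩
      rw [Units.val_mul, ← mulVec_mulVec]
      simpa only [sub_add_sub_cancel, Equiv.Perm.mul_apply] using
        (a2 ((h : Matrix (Fin n) (Fin n) ℤ) *ᵥ z) i).add (b2 z (π i))
    | inv g _ hg =>
      obtain ⟨a1, π, a2⟩ := hg
      refine ⟨?_, π⁻¹, fun z i => ?_⟩
      · conv_lhs => rw [← a1]
        rw [mulVec_mulVec, ← Units.val_mul, inv_mul_cancel, Units.val_one, one_mulVec]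
      · have := a2 (((g⁻¹ : GL (Fin n) ℤ) : Matrix (Fin n) (Fin n) ℤ) *ᵥ z) (π⁻¹ i)
        rw [mulVec_mulVec, ← Units.val_mul, mul_inv_cancel, Units.val_one, one_mulVec] at this
        simpa using this.neg
  · rintro ⟨h1, π, h2⟩
    obtain ⟨g, g1, g2⟩ := op_perm π⁻¹
    have := pure Finset.univ (g * M)
      (by rw [Units.val_mul, ← mulVec_mulVec, h1, g2]; rfl)
      (fun z i => by
        rw [Units.val_mul, ← mulVec_mulVec, g2]
        simpa using h2 z (π⁻¹ i))
      (by simp)
    exact (Subgroup.mul_mem_cancel_left _ g1).mp this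

end Pool.Agent.Results.MP_e5baee_al.Image
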